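import Pool.Agent.H424.PJ.Mom

/-! # The kernel of a pair of points under a one-parameter group of projective maps -/

set_option autoImplicit false

namespace Pool.Agent.H424.PJ

open Finset Pool.Agent.H424.QP

variable {p : ℕ}

/-- determinant of `g.1 • 1 + g.2 • M`, `M` of trace `tr` and determinant `dt` -/
def dtm (tr dt : ZMod p) (g : ZMod p × ZMod p) : ZMod p :=
  g.1 ^ 2 + g.1 * g.2 * tr + g.2 ^ 2 * dt

/-- the coefficient of `w` -/
def cf (g h : ZMod p × ZMod p) : ZMod p := g.1 * h.2 - g.2 * h.1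

/-- the constant term -/
def ct (tr dt : ZMod p) (g h : ZMod p × ZMod p) : ZMod p :=
  g.1 * h.1 + g.2 * h.1 * tr + g.2 * h.2 * dt

/-- the kernel -/
noncomputable def K (χ : DirichletCharacter ℂ p) (tr dt : ZMod p) (w : ZMod p) (g h : ZMod p × ZMod p) : ℂ :=
  χ (cf g h * w + ct tr dt g h)

/-- the correlation of two rows of the kernel -/
noncomputable def Cr (χ : DirichletCharacter ℂ p) (tr dt : ZMod p) (T : Finset (ZMod p × ZMod p))
    (h h' : ZMod p × ZMod p) (w : ZMod p) : ℂ :=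
  ∑ g ∈ T, K χ tr dt w g h * (starRingEnd ℂ) (K χ tr dt w g h')

/-- pairwise not proportional, and not singular -/
def Good (tr dt : ZMod p) (T : Finset (ZMod p × ZMod p)) : Prop :=
  (∀ g ∈ T, dtm tr dt g ≠ 0) ∧ ∀ g ∈ T, ∀ h ∈ T, g ≠ h → cf g h ≠ 0

theorem K_norm_le (χ : DirichletCharacter ℂ p) (tr dt w : ZMod p) (g h : ZMod p × ZMod p) :
    ‖K χ tr dt w g h‖ ≤ 1 := χ.norm_le_one _

theorem Cr_norm_le (χ : DirichletCharacter ℂ p) (tr dt : ZMod p) (T : Finset (ZMod p × ZMod p))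
    (h h' : ZMod p × ZMod p) (w : ZMod p) : ‖Cr χ tr dt T h h' w‖ ≤ T.card := by
  unfold Cr
  refine (norm_sum_le _ _).trans ?_
  calc ∑ g ∈ T, ‖K χ tr dt w g h * (starRingEnd ℂ) (K χ tr dt w g h')‖ ≤ ∑ _g ∈ T, (1 : ℝ) := by
        refine Finset.sum_le_sum fun g _ => ?_
        rw [norm_mul, RCLike.norm_conj]
        exact mul_le_one₀ (K_norm_le _ _ _ _ _ _) (norm_nonneg _) (K_norm_le _ _ _ _ _ _)
    _ = T.card := by simp

theorem corr_mom [Fact p.Prime] (χ : DirichletCharacter ℂ p) (hχ : χ ≠ 1) (k : ℕ) (tr dt : ZMod p)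
    (T : Finset (ZMod p × ZMod p)) (hT : Good tr dt T) (h4 : 4 ≤ T.card)
    (h h' : ZMod p × ZMod p) (hd : dtm tr dt h ≠ 0) (hd' : dtm tr dt h' ≠ 0) (hh : cf h h' ≠ 0) :
    ∑ w : ZMod p, ‖Cr χ tr dt T h h' w‖ ^ (2 * k) ≤
      (2 : ℝ) ^ (2 * k) * (((4 * k : ℝ) ^ (2 * k) + 1) * (T.card : ℝ) ^ k * p +
        (4 * k) * (T.card : ℝ) ^ (2 * k) * Real.sqrt p) := by
  classical
  set E : Finset (ZMod p × ZMod p) := T.filter fun g => cf g h = 0 ∨ cf g h' = 0 with hE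
  set T0 : Finset (ZMod p × ZMod p) := T.filter fun g => ¬ (cf g h = 0 ∨ cf g h' = 0) with hT0
  have hone : ∀ e : ZMod p × ZMod p, dtm tr dt e ≠ 0 → (T.filter fun g => cf g e = 0).card ≤ 1 := by
    intro e he
    rw [Finset.card_le_one]
    intro g hg g' hg'
    rw [mem_filter] at hg hg'
    by_contra hne
    refine hT.2 g hg.1 g' hg'.1 hne ?_
    have h1 := hg.2
    have h2 := hg'.2
    unfold cf at h1 h2 ⊢
    have he0 : e.1 ≠ 0 ∨ e.2 ≠ 0 := by
      by_contra hcon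
      push Not at hcon
      apply he
      unfold dtm
      rw [hcon.1, hcon.2]
      ring
    rcases he0 with h3 | h3
    · have e1 : e.1 * (g.1 * g'.2 - g.2 * g'.1) =
          g'.1 * (g.1 * e.2 - g.2 * e.1) - g.1 * (g'.1 * e.2 - g'.2 * e.1) := by ring
      rw [h1, h2, mul_zero, mul_zero, sub_zero] at e1
      exact (mul_eq_zero.1 e1).resolve_left h3
    · have e1 : e.2 * (g.1 * g'.2 - g.2 * g'.1) =
          g'.2 * (g.1 * e.2 - g.2 * e.1) - g.2 * (g'.1 * e.2 - g'.2 * e.1) := by ring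
      rw [h1, h2, mul_zero, mul_zero, sub_zero] at e1
      exact (mul_eq_zero.1 e1).resolve_left h3
  have hE2 : E.card ≤ 2 := by
    have h1 : E ⊆ (T.filter fun g => cf g h = 0) ∪ T.filter fun g => cf g h' = 0 := by
      intro g hg
      rw [hE, mem_filter] at hg
      rw [mem_union, mem_filter, mem_filter]
      rcases hg.2 with h2 | h2
      · exact Or.inl ⟨hg.1, h2⟩
      · exact Or.inr ⟨hg.1, h2⟩
    refine (card_le_card h1).trans ((card_union_le _ _).trans ?_)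
    have h2 := hone h hd
    have h3 := hone h' hd'
    omega
  have hcard : E.card + T0.card = T.card := by
    rw [hE, hT0]
    exact Finset.card_filter_add_card_filter_not _
  have hne : T0.Nonempty := by
    rw [← card_pos]
    omega
  have : Nonempty T0 := hne.to_subtype
  -- the shifts
  set a : T0 → ZMod p := fun g => ct tr dt g.1 h / cf g.1 h with ha
  set b : T0 → ZMod p := fun g => ct tr dt g.1 h' / cf g.1 h' with hb
  set c : T0 → ℂ := fun g => χ (cf g.1 h) * (starRingEnd ℂ) (χ (cf g.1 h')) with hc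
  have hmem : ∀ g : T0, g.1 ∈ T ∧ cf g.1 h ≠ 0 ∧ cf g.1 h' ≠ 0 := by
    intro g
    have h1 : g.1 ∈ T.filter fun g => ¬ (cf g h = 0 ∨ cf g h' = 0) := g.2
    rw [mem_filter, not_or] at h1
    exact ⟨h1.1, h1.2.1, h1.2.2⟩
  have hc1 : ∀ i, ‖c i‖ ≤ 1 := by
    intro i
    rw [hc]
    simp only
    rw [norm_mul, RCLike.norm_conj]
    exact mul_le_one₀ (χ.norm_le_one _) (norm_nonneg _) (χ.norm_le_one _)
  have hinj : Function.Injective a := by
    intro g g' hgg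
    rw [ha] at hgg
    simp only at hgg
    obtain ⟨h1, h2, h3⟩ := hmem g
    obtain ⟨h1', h2', h3'⟩ := hmem g'
    rw [div_eq_div_iff h2 h2'] at hgg
    by_contra hne
    have hne' : g.1 ≠ g'.1 := fun h => hne (Subtype.ext h)
    have h5 := hT.2 g.1 h1 g'.1 h1' hne'
    have e1 : ct tr dt g.1 h * cf g'.1 h - ct tr dt g'.1 h * cf g.1 h =
        -(dtm tr dt h * cf g.1 g'.1) := by
      unfold ct cf dtm
      ring
    rw [hgg, sub_self] at e1
    have e2 : dtm tr dt h * cf g.1 g'.1 = 0 := neg_eq_zero.1 e1.symm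
    rcases mul_eq_zero.1 e2 with h6 | h6
    · exact hd h6
    · exact h5 h6
  have hab : ∀ i, a i ≠ b i := by
    intro g hgg
    rw [ha, hb] at hgg
    simp only at hgg
    obtain ⟨h1, h2, h3⟩ := hmem g
    rw [div_eq_div_iff h2 h3] at hgg
    have e1 : ct tr dt g.1 h * cf g.1 h' - ct tr dt g.1 h' * cf g.1 h =
        dtm tr dt g.1 * cf h h' := by
      unfold ct cf dtm
      ring
    rw [hgg, sub_self] at e1
    rcases mul_eq_zero.1 e1.symm with h6 | h6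
    · exact hT.1 g.1 h1 h6
    · exact hh h6
  have hV : ∀ w, ∑ g ∈ T0, K χ tr dt w g h * (starRingEnd ℂ) (K χ tr dt w g h') = V χ c a b w := by
    intro w
    unfold V
    rw [← Finset.sum_coe_sort]
    refine Finset.sum_congr rfl fun g _ => ?_
    obtain ⟨h1, h2, h3⟩ := hmem g
    have e1 : cf g.1 h * w + ct tr dt g.1 h = cf g.1 h * (w + ct tr dt g.1 h / cf g.1 h) := by
      field_simp
    have e2 : cf g.1 h' * w + ct tr dt g.1 h' = cf g.1 h' * (w + ct tr dt g.1 h' / cf g.1 h') := by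
      field_simp
    unfold K
    rw [e1, e2, map_mul, map_mul, map_mul]
    rw [ha, hb, hc]
    simp only
    ring
  have hCr : ∀ w, ‖Cr χ tr dt T h h' w‖ ≤ ‖V χ c a b w‖ + 2 := by
    intro w
    have e1 : Cr χ tr dt T h h' w =
        (∑ g ∈ E, K χ tr dt w g h * (starRingEnd ℂ) (K χ tr dt w g h')) + V χ c a b w := by
      rw [← hV w]
      unfold Cr
      rw [hE, hT0]
      exact (Finset.sum_filter_add_sum_filter_not T _ _).symm
    rw [e1]
    refine (norm_add_le _ _).trans ?_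
    rw [add_comm]
    refine add_le_add le_rfl ?_
    have h1 := Cr_norm_le χ tr dt E h h' w
    unfold Cr at h1
    refine h1.trans ?_
    exact_mod_cast hE2
  have hm := mom χ hχ k c hc1 a b hinj hab
  have hcT0 : Fintype.card T0 = T0.card := Fintype.card_coe T0
  rw [hcT0] at hm
  have hT0le : (T0.card : ℝ) ≤ T.card := by
    have : T0.card ≤ T.card := by omega
    exact_mod_cast this
  have hp0 : (0 : ℝ) ≤ p := Nat.cast_nonneg p
  have hk4 : ((2 : ℝ) ^ (2 * k)) ≤ (T.card : ℝ) ^ k := by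
    rw [pow_mul]
    refine pow_le_pow_left₀ (by norm_num) ?_ k
    have : (4 : ℝ) ≤ T.card := by exact_mod_cast h4
    linarith
  calc ∑ w : ZMod p, ‖Cr χ tr dt T h h' w‖ ^ (2 * k)
      ≤ ∑ w : ZMod p, 2 ^ (2 * k) * (‖V χ c a b w‖ ^ (2 * k) + 2 ^ (2 * k)) := by
        refine Finset.sum_le_sum fun w _ => ?_
        refine (pow_le_pow_left₀ (norm_nonneg _) (hCr w) _).trans ?_
        refine (add_pow_le (norm_nonneg _) (by norm_num) _).trans ?_
        refine mul_le_mul_of_nonneg_right ?_ (by positivity)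
        exact pow_le_pow_right₀ (by norm_num) (Nat.sub_le _ _)
    _ = 2 ^ (2 * k) * (∑ w : ZMod p, ‖V χ c a b w‖ ^ (2 * k) + 2 ^ (2 * k) * p) := by
        rw [← Finset.mul_sum, Finset.sum_add_distrib]
        simp only [Finset.sum_const, Finset.card_univ, ZMod.card, nsmul_eq_mul]
        ring
    _ ≤ (2 : ℝ) ^ (2 * k) * (((4 * k : ℝ) ^ (2 * k) + 1) * (T.card : ℝ) ^ k * p +
        (4 * k) * (T.card : ℝ) ^ (2 * k) * Real.sqrt p) := by
        refine mul_le_mul_of_nonneg_left ?_ (by positivity)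
        have h1 : (T0.card : ℝ) ^ k ≤ (T.card : ℝ) ^ k :=
          pow_le_pow_left₀ (Nat.cast_nonneg _) hT0le k
        have h2 : (T0.card : ℝ) ^ (2 * k) ≤ (T.card : ℝ) ^ (2 * k) :=
          pow_le_pow_left₀ (Nat.cast_nonneg _) hT0le _
        have h3 : (4 * k : ℝ) ^ (2 * k) * (T0.card : ℝ) ^ k * p ≤
            (4 * k : ℝ) ^ (2 * k) * (T.card : ℝ) ^ k * p := by
          refine mul_le_mul_of_nonneg_right ?_ hp0
          exact mul_le_mul_of_nonneg_left h1 (by positivity)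
        have h5 : (4 * k) * (T0.card : ℝ) ^ (2 * k) * Real.sqrt p ≤
            (4 * k) * (T.card : ℝ) ^ (2 * k) * Real.sqrt p := by
          refine mul_le_mul_of_nonneg_right ?_ (Real.sqrt_nonneg _)
          exact mul_le_mul_of_nonneg_left h2 (by positivity)
        have h6 : (2 : ℝ) ^ (2 * k) * p ≤ (T.card : ℝ) ^ k * p :=
          mul_le_mul_of_nonneg_right hk4 hp0
        linarith

/-- the sum of the correlations -/
noncomputable def Z (χ : DirichletCharacter ℂ p) (tr dt : ZMod p) (T T' : Finset (ZMod p × ZMod p))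
    (w : ZMod p) : ℝ :=
  ∑ q ∈ T'.offDiag, ‖Cr χ tr dt T q.1 q.2 w‖

/-- the exceptional values -/
noncomputable def Bad [NeZero p] (χ : DirichletCharacter ℂ p) (tr dt : ZMod p)
    (T T' : Finset (ZMod p × ZMod p)) (θ : ℝ) : Finset (ZMod p) :=
  open Classical in univ.filter fun w => θ * ((T'.card : ℝ) ^ 2 * T.card) < Z χ tr dt T T' w

theorem bad_card [Fact p.Prime] (χ : DirichletCharacter ℂ p) (hχ : χ ≠ 1) (k : ℕ) (hk : 1 ≤ k)
    (tr dt : ZMod p) (T T' : Finset (ZMod p × ZMod p)) (hT : Good tr dt T) (hT' : Good tr dt T')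
    (h4 : 4 ≤ T.card) (h1' : 1 ≤ T'.card) (θ : ℝ) (hθ : 0 < θ) :
    ((Bad χ tr dt T T' θ).card : ℝ) ≤ (4 / θ ^ 2) ^ k *
      (((4 * k : ℝ) ^ (2 * k) + 1) * p / (T.card : ℝ) ^ k + (4 * k) * Real.sqrt p) := by
  classical
  set R : ℝ := (2 : ℝ) ^ (2 * k) * (((4 * k : ℝ) ^ (2 * k) + 1) * (T.card : ℝ) ^ k * p +
        (4 * k) * (T.card : ℝ) ^ (2 * k) * Real.sqrt p) with hR
  have hR0 : 0 ≤ R := by positivity
  have hT0 : (0 : ℝ) < T.card := by
    have : (4 : ℝ) ≤ T.card := by exact_mod_cast h4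
    linarith
  have hT'0 : (0 : ℝ) < T'.card := by
    have : (1 : ℝ) ≤ T'.card := by exact_mod_cast h1'
    linarith
  have hoff : (T'.offDiag.card : ℝ) ≤ (T'.card : ℝ) ^ 2 := by
    have h1 : T'.offDiag.card ≤ T'.card ^ 2 := by
      rw [Finset.offDiag_card, sq]
      exact Nat.sub_le _ _
    exact_mod_cast h1
  obtain ⟨n, hn⟩ : ∃ n, 2 * k = n + 1 := ⟨2 * k - 1, by omega⟩
  have hZ : ∀ w, Z χ tr dt T T' w ^ (2 * k) ≤ (T'.card : ℝ) ^ (2 * n) *
      ∑ q ∈ T'.offDiag, ‖Cr χ tr dt T q.1 q.2 w‖ ^ (2 * k) := by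
    intro w
    unfold Z
    have h1 := pow_sum_div_card_le_sum_pow (s := T'.offDiag)
      (f := fun q => ‖Cr χ tr dt T q.1 q.2 w‖) (fun _ _ => norm_nonneg _) n
    rw [← hn] at h1
    rcases Nat.eq_zero_or_pos T'.offDiag.card with h0 | h0
    · rw [Finset.card_eq_zero] at h0
      rw [h0]
      simp only [Finset.sum_empty, mul_zero]
      rw [zero_pow (by omega)]
    · have h0' : (0 : ℝ) < (T'.offDiag.card : ℝ) ^ n := by positivity
      rw [div_le_iff₀ h0'] at h1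
      refine h1.trans ?_
      rw [mul_comm]
      refine mul_le_mul_of_nonneg_right ?_ (Finset.sum_nonneg fun _ _ => by positivity)
      rw [pow_mul]
      exact pow_le_pow_left₀ (Nat.cast_nonneg _) hoff n
  have hsum : ∑ w : ZMod p, Z χ tr dt T T' w ^ (2 * k) ≤ (T'.card : ℝ) ^ (2 * (2 * k)) * R := by
    calc ∑ w : ZMod p, Z χ tr dt T T' w ^ (2 * k)
        ≤ ∑ w : ZMod p, (T'.card : ℝ) ^ (2 * n) *
          ∑ q ∈ T'.offDiag, ‖Cr χ tr dt T q.1 q.2 w‖ ^ (2 * k) :=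
          Finset.sum_le_sum fun w _ => hZ w
      _ = (T'.card : ℝ) ^ (2 * n) *
          ∑ q ∈ T'.offDiag, ∑ w : ZMod p, ‖Cr χ tr dt T q.1 q.2 w‖ ^ (2 * k) := by
          rw [← Finset.mul_sum, Finset.sum_comm]
      _ ≤ (T'.card : ℝ) ^ (2 * n) * ∑ _q ∈ T'.offDiag, R := by
          refine mul_le_mul_of_nonneg_left ?_ (by positivity)
          refine Finset.sum_le_sum fun q hq => ?_
          rw [Finset.mem_offDiag] at hq
          exact corr_mom χ hχ k tr dt T hT h4 q.1 q.2 (hT'.1 _ hq.1) (hT'.1 _ hq.2.1)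
            (hT'.2 _ hq.1 _ hq.2.1 hq.2.2)
      _ = (T'.card : ℝ) ^ (2 * n) * (T'.offDiag.card * R) := by
          rw [Finset.sum_const, nsmul_eq_mul]
      _ ≤ (T'.card : ℝ) ^ (2 * n) * ((T'.card : ℝ) ^ 2 * R) := by
          refine mul_le_mul_of_nonneg_left ?_ (by positivity)
          exact mul_le_mul_of_nonneg_right hoff hR0
      _ = (T'.card : ℝ) ^ (2 * (2 * k)) * R := by
          rw [hn]
          ring
  have hbad : ((Bad χ tr dt T T' θ).card : ℝ) * (θ * ((T'.card : ℝ) ^ 2 * T.card)) ^ (2 * k) ≤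
      (T'.card : ℝ) ^ (2 * (2 * k)) * R := by
    refine le_trans ?_ hsum
    calc ((Bad χ tr dt T T' θ).card : ℝ) * (θ * ((T'.card : ℝ) ^ 2 * T.card)) ^ (2 * k)
        = ∑ _w ∈ Bad χ tr dt T T' θ, (θ * ((T'.card : ℝ) ^ 2 * T.card)) ^ (2 * k) := by
          rw [Finset.sum_const, nsmul_eq_mul]
      _ ≤ ∑ w ∈ Bad χ tr dt T T' θ, Z χ tr dt T T' w ^ (2 * k) := by
          refine Finset.sum_le_sum fun w hw => ?_
          unfold Bad at hw
          rw [mem_filter] at hw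
          exact pow_le_pow_left₀ (by positivity) hw.2.le _
      _ ≤ ∑ w : ZMod p, Z χ tr dt T T' w ^ (2 * k) := by
          refine Finset.sum_le_sum_of_subset_of_nonneg (Finset.subset_univ _) fun w _ _ => ?_
          exact (even_two_mul k).pow_nonneg _
  have hpos : (0 : ℝ) < (θ * ((T'.card : ℝ) ^ 2 * T.card)) ^ (2 * k) := by positivity
  rw [← le_div_iff₀ hpos] at hbad
  refine hbad.trans (le_of_eq ?_)
  rw [hR, div_eq_iff hpos.ne']
  have hb0 : (T.card : ℝ) ^ k ≠ 0 := by positivity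
  have e1 : (θ * ((T'.card : ℝ) ^ 2 * T.card)) ^ (2 * k) =
      (θ ^ 2) ^ k * ((T'.card : ℝ) ^ (2 * (2 * k)) * ((T.card : ℝ) ^ k * (T.card : ℝ) ^ k)) := by ring
  have e2 : (4 / θ ^ 2) ^ k * (θ ^ 2) ^ k = (2 : ℝ) ^ (2 * k) := by
    rw [← mul_pow, div_mul_cancel₀ _ (by positivity), pow_mul]
    norm_num
  have e3 : (T.card : ℝ) ^ (2 * k) = (T.card : ℝ) ^ k * (T.card : ℝ) ^ k := by ring
  have e4 : ((4 * k : ℝ) ^ (2 * k) + 1) * p / (T.card : ℝ) ^ k * ((T.card : ℝ) ^ k * (T.card : ℝ) ^ k) =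
      ((4 * k : ℝ) ^ (2 * k) + 1) * (T.card : ℝ) ^ k * p := by
    field_simp
  rw [e1, ← e2, e3]
  calc _ = (4 / θ ^ 2) ^ k * (θ ^ 2) ^ k * (T'.card : ℝ) ^ (2 * (2 * k)) *
        (((4 * k : ℝ) ^ (2 * k) + 1) * (T.card : ℝ) ^ k * p +
          4 * k * ((T.card : ℝ) ^ k * (T.card : ℝ) ^ k) * Real.sqrt p) := by ring
    _ = (4 / θ ^ 2) ^ k * (θ ^ 2) ^ k * (T'.card : ℝ) ^ (2 * (2 * k)) *
        (((4 * k : ℝ) ^ (2 * k) + 1) * p / (T.card : ℝ) ^ k * ((T.card : ℝ) ^ k * (T.card : ℝ) ^ k) +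
          4 * k * ((T.card : ℝ) ^ k * (T.card : ℝ) ^ k) * Real.sqrt p) := by rw [e4]
    _ = _ := by ring

/-- the bilinear form over `T × T'` for a value which is not exceptional -/
theorem block [NeZero p] (χ : DirichletCharacter ℂ p) (tr dt : ZMod p)
    (T T' : Finset (ZMod p × ZMod p)) (h1' : 1 ≤ T'.card) (θ : ℝ) (w : ZMod p)
    (hw : w ∉ Bad χ tr dt T T' θ)
    (φ ψ : ZMod p × ZMod p → ℂ) (hφ : ∀ g, ‖φ g‖ ≤ 1) (hψ : ∀ g, ‖ψ g‖ ≤ 1) :
    ‖∑ g ∈ T, ∑ h ∈ T', φ g * ψ h * K χ tr dt w g h‖ ^ 2 ≤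
      ((T.card : ℝ) * T'.card) ^ 2 * (1 / T'.card + θ) := by
  classical
  have hZw : Z χ tr dt T T' w ≤ θ * ((T'.card : ℝ) ^ 2 * T.card) := by
    by_contra hcon
    push Not at hcon
    exact hw (by unfold Bad; exact mem_filter.2 ⟨mem_univ _, hcon⟩)
  have hT'0 : (0 : ℝ) < T'.card := by
    have : (1 : ℝ) ≤ T'.card := by exact_mod_cast h1'
    linarith
  set R : ZMod p × ZMod p → ℂ := fun g => ∑ h ∈ T', ψ h * K χ tr dt w g h with hR
  have h1 : ‖∑ g ∈ T, ∑ h ∈ T', φ g * ψ h * K χ tr dt w g h‖ ≤ ∑ g ∈ T, ‖φ g‖ * ‖R g‖ := by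
    refine (norm_sum_le _ _).trans (Finset.sum_le_sum fun g _ => ?_)
    rw [← norm_mul, hR, Finset.mul_sum]
    simp only [mul_assoc]
    exact le_rfl
  have h2 : (∑ g ∈ T, ‖φ g‖ * ‖R g‖) ^ 2 ≤ (∑ g ∈ T, ‖φ g‖ ^ 2) * ∑ g ∈ T, ‖R g‖ ^ 2 :=
    Finset.sum_mul_sq_le_sq_mul_sq _ _ _
  have h3 : ∑ g ∈ T, ‖φ g‖ ^ 2 ≤ T.card := by
    calc ∑ g ∈ T, ‖φ g‖ ^ 2 ≤ ∑ _g ∈ T, (1 : ℝ) :=
          Finset.sum_le_sum fun i _ => pow_le_one₀ (norm_nonneg _) (hφ i)
      _ = T.card := by simp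
  have h4 : ((∑ g ∈ T, ‖R g‖ ^ 2 : ℝ) : ℂ) = ∑ h ∈ T', ∑ h' ∈ T',
      ψ h * (starRingEnd ℂ) (ψ h') * Cr χ tr dt T h h' w := by
    have h5 : ∀ g, ((‖R g‖ ^ 2 : ℝ) : ℂ) = ∑ h ∈ T', ∑ h' ∈ T',
        ψ h * (starRingEnd ℂ) (ψ h') *
        (K χ tr dt w g h * (starRingEnd ℂ) (K χ tr dt w g h')) := by
      intro g
      have h6 : ((‖R g‖ ^ 2 : ℝ) : ℂ) = R g * (starRingEnd ℂ) (R g) := by
        rw [Complex.mul_conj, Complex.normSq_eq_norm_sq]
      rw [h6, hR]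
      simp only [map_sum, map_mul]
      rw [Finset.sum_mul_sum]
      refine Finset.sum_congr rfl fun j _ => Finset.sum_congr rfl fun j' _ => ?_
      ring
    rw [Complex.ofReal_sum, Finset.sum_congr rfl fun i _ => h5 i, Finset.sum_comm]
    refine Finset.sum_congr rfl fun j _ => ?_
    rw [Finset.sum_comm]
    refine Finset.sum_congr rfl fun j' _ => ?_
    rw [← Finset.mul_sum, Cr]
  have hψψ : ∀ h h', ‖ψ h * (starRingEnd ℂ) (ψ h')‖ ≤ 1 := by
    intro h h'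
    rw [norm_mul, RCLike.norm_conj]
    exact mul_le_one₀ (hψ _) (norm_nonneg _) (hψ _)
  have h5 : ∑ g ∈ T, ‖R g‖ ^ 2 ≤ T'.card * T.card + Z χ tr dt T T' w := by
    have h6 : ∑ g ∈ T, ‖R g‖ ^ 2 = ‖∑ h ∈ T', ∑ h' ∈ T',
        ψ h * (starRingEnd ℂ) (ψ h') * Cr χ tr dt T h h' w‖ := by
      rw [← h4, Complex.norm_real, Real.norm_eq_abs, abs_of_nonneg]
      exact Finset.sum_nonneg fun i _ => by positivity
    rw [h6, ← Finset.sum_product', ← Finset.diag_union_offDiag T',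
      Finset.sum_union (Finset.disjoint_diag_offDiag T')]
    refine (norm_add_le _ _).trans (add_le_add ?_ ?_)
    · refine (norm_sum_le _ _).trans ?_
      calc ∑ q ∈ T'.diag, ‖ψ q.1 * (starRingEnd ℂ) (ψ q.2) * Cr χ tr dt T q.1 q.2 w‖
          ≤ ∑ _q ∈ T'.diag, (T.card : ℝ) := by
            refine Finset.sum_le_sum fun q _ => ?_
            rw [norm_mul]
            exact (mul_le_of_le_one_left (norm_nonneg _) (hψψ _ _)).trans
              (Cr_norm_le χ tr dt T _ _ w)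
        _ = T'.card * T.card := by rw [Finset.sum_const, nsmul_eq_mul, Finset.diag_card]
    · refine (norm_sum_le _ _).trans ?_
      unfold Z
      refine Finset.sum_le_sum fun q _ => ?_
      rw [norm_mul]
      exact mul_le_of_le_one_left (norm_nonneg _) (hψψ _ _)
  calc ‖∑ g ∈ T, ∑ h ∈ T', φ g * ψ h * K χ tr dt w g h‖ ^ 2
      ≤ (∑ g ∈ T, ‖φ g‖ * ‖R g‖) ^ 2 := pow_le_pow_left₀ (norm_nonneg _) h1 2
    _ ≤ (∑ g ∈ T, ‖φ g‖ ^ 2) * ∑ g ∈ T, ‖R g‖ ^ 2 := h2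
    _ ≤ T.card * (T'.card * T.card + Z χ tr dt T T' w) :=
        mul_le_mul h3 h5 (Finset.sum_nonneg fun i _ => by positivity) (Nat.cast_nonneg _)
    _ ≤ T.card * (T'.card * T.card + θ * ((T'.card : ℝ) ^ 2 * T.card)) := by
        refine mul_le_mul_of_nonneg_left ?_ (Nat.cast_nonneg _)
        linarith
    _ = ((T.card : ℝ) * T'.card) ^ 2 * (1 / T'.card + θ) := by
        field_simp

end Pool.Agent.H424.PJ
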