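import Pool.Agent.H424.PJ.Block

/-! # Popular images under a one-parameter group of projective maps -/

set_option autoImplicit false

namespace Pool.Agent.H424.PJ

open Finset Pool.Agent.H424.QP

variable {p : ℕ}

/-- numerator of the image of `x` under `g.1 • 1 + g.2 • M` -/
def nm (α β : ZMod p) (g : ZMod p × ZMod p) (x : ZMod p) : ZMod p := g.1 * x + g.2 * (α * x + β)

/-- denominator of the image of `x` under `g.1 • 1 + g.2 • M` -/
def dn (γ δ : ZMod p) (g : ZMod p × ZMod p) (x : ZMod p) : ZMod p := g.1 + g.2 * (γ * x + δ)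

/-- the invariant of a pair of points -/
noncomputable def ivr [Fact p.Prime] (α β γ δ x y : ZMod p) : ZMod p :=
  (γ * x * y + δ * x - α * y - β) / (x - y)

theorem cross [Fact p.Prime] (α β γ δ : ZMod p) (g h : ZMod p × ZMod p) (x y : ZMod p)
    (hxy : x ≠ y) :
    nm α β g x * dn γ δ h y - nm α β h y * dn γ δ g x =
      (x - y) * (cf g h * ivr α β γ δ x y + ct (α + δ) (α * δ - β * γ) g h) := by
  have hu : x - y ≠ 0 := sub_ne_zero.2 hxy
  have e : (x - y) * (cf g h * ivr α β γ δ x y) = cf g h * (γ * x * y + δ * x - α * y - β) := by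
    unfold ivr
    field_simp
  rw [mul_add, e]
  unfold nm dn cf ct
  ring

theorem kernel [Fact p.Prime] (χ : DirichletCharacter ℂ p) (α β γ δ : ZMod p)
    (g h : ZMod p × ZMod p) (x y : ZMod p) (hxy : x ≠ y) (hg : dn γ δ g x ≠ 0)
    (hh : dn γ δ h y ≠ 0) :
    χ (nm α β g x / dn γ δ g x - nm α β h y / dn γ δ h y) =
      χ (x - y) * χ ((dn γ δ g x)⁻¹) * χ ((dn γ δ h y)⁻¹) *
        K χ (α + δ) (α * δ - β * γ) (ivr α β γ δ x y) g h := by
  have e : nm α β g x / dn γ δ g x - nm α β h y / dn γ δ h y =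
      (x - y) * (dn γ δ g x)⁻¹ * (dn γ δ h y)⁻¹ *
        (cf g h * ivr α β γ δ x y + ct (α + δ) (α * δ - β * γ) g h) := by
    have h1 := cross α β γ δ g h x y hxy
    have h2 : nm α β g x / dn γ δ g x - nm α β h y / dn γ δ h y =
        (nm α β g x * dn γ δ h y - nm α β h y * dn γ δ g x) * (dn γ δ g x)⁻¹ * (dn γ δ h y)⁻¹ := by
      field_simp
    rw [h2, h1]
    ring
  rw [e, map_mul, map_mul, map_mul]
  rfl

/-- the local form of a pair of points -/
theorem local_bound [Fact p.Prime] (χ : DirichletCharacter ℂ p) (α β γ δ : ZMod p)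
    (T T' : Finset (ZMod p × ZMod p)) (h1' : 1 ≤ T'.card) (θ : ℝ) (x y : ZMod p)
    (hxy : x ≠ y) (hw : ivr α β γ δ x y ∉ Bad χ (α + δ) (α * δ - β * γ) T T' θ)
    (φ ψ : ZMod p × ZMod p → ℂ) (hφ : ∀ g, ‖φ g‖ ≤ 1) (hψ : ∀ g, ‖ψ g‖ ≤ 1)
    (hφ0 : ∀ g, dn γ δ g x = 0 → φ g = 0) (hψ0 : ∀ g, dn γ δ g y = 0 → ψ g = 0) :
    ‖∑ g ∈ T, ∑ h ∈ T', φ g * ψ h *
        χ (nm α β g x / dn γ δ g x - nm α β h y / dn γ δ h y)‖ ≤
      (T.card : ℝ) * T'.card * Real.sqrt (1 / T'.card + θ) := by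
  have e : ∑ g ∈ T, ∑ h ∈ T', φ g * ψ h *
        χ (nm α β g x / dn γ δ g x - nm α β h y / dn γ δ h y) =
      χ (x - y) * ∑ g ∈ T, ∑ h ∈ T', (φ g * χ ((dn γ δ g x)⁻¹)) * (ψ h * χ ((dn γ δ h y)⁻¹)) *
        K χ (α + δ) (α * δ - β * γ) (ivr α β γ δ x y) g h := by
    rw [Finset.mul_sum]
    refine Finset.sum_congr rfl fun g _ => ?_
    rw [Finset.mul_sum]
    refine Finset.sum_congr rfl fun h _ => ?_
    by_cases hg : dn γ δ g x = 0
    · rw [hφ0 g hg]
      ring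
    by_cases hh : dn γ δ h y = 0
    · rw [hψ0 h hh]
      ring
    rw [kernel χ α β γ δ g h x y hxy hg hh]
    ring
  rw [e, norm_mul]
  refine (mul_le_of_le_one_left (norm_nonneg _) (χ.norm_le_one _)).trans ?_
  have hb := block χ (α + δ) (α * δ - β * γ) T T' h1' θ _ hw
    (fun g => φ g * χ ((dn γ δ g x)⁻¹)) (fun h => ψ h * χ ((dn γ δ h y)⁻¹))
    (fun g => by
      rw [norm_mul]
      exact mul_le_one₀ (hφ g) (norm_nonneg _) (χ.norm_le_one _))
    (fun g => by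
      rw [norm_mul]
      exact mul_le_one₀ (hψ g) (norm_nonneg _) (χ.norm_le_one _))
  refine (Real.le_sqrt_of_sq_le hb).trans (le_of_eq ?_)
  rw [Real.sqrt_mul (by positivity), Real.sqrt_sq (by positivity)]

/-- sum over a covered set -/
theorem cover_sum {σ τ : Type} [DecidableEq τ] (E : Finset σ) (π : σ → τ) (A : Finset τ)
    (hA : ∀ a ∈ A, 0 < (E.filter fun e => π e = a).card) (f H : τ → ℂ) :
    ∑ a ∈ A, f a * H a = ∑ e ∈ E, (if π e ∈ A then
      f (π e) / ((E.filter fun e' => π e' = π e).card : ℂ) else 0) * H (π e) := by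
  have h1 : ∑ e ∈ E, (if π e ∈ A then
      f (π e) / ((E.filter fun e' => π e' = π e).card : ℂ) else 0) * H (π e) =
      ∑ e ∈ E.filter (fun e => π e ∈ A),
        f (π e) / ((E.filter fun e' => π e' = π e).card : ℂ) * H (π e) := by
    rw [Finset.sum_filter]
    refine Finset.sum_congr rfl fun e _ => ?_
    split_ifs
    · rfl
    · rw [zero_mul]
  rw [h1, ← Finset.sum_fiberwise_of_maps_to (s := E.filter (fun e => π e ∈ A)) (t := A) (g := π)
    (fun e he => (mem_filter.1 he).2)]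
  refine Finset.sum_congr rfl fun a ha => ?_
  have h2 : (E.filter (fun e => π e ∈ A)).filter (fun e => π e = a) = E.filter fun e => π e = a := by
    ext e
    rw [mem_filter, mem_filter, mem_filter]
    constructor
    · rintro ⟨⟨h3, _⟩, h4⟩
      exact ⟨h3, h4⟩
    · rintro ⟨h3, h4⟩
      exact ⟨⟨h3, by rw [h4]; exact ha⟩, h4⟩
  rw [h2]
  have h3 : ∀ e ∈ E.filter (fun e => π e = a),
      f (π e) / ((E.filter fun e' => π e' = π e).card : ℂ) * H (π e) =
      f a / ((E.filter fun e' => π e' = a).card : ℂ) * H a := by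
    intro e he
    rw [(mem_filter.1 he).2]
  rw [Finset.sum_congr rfl h3, Finset.sum_const, nsmul_eq_mul]
  have h4 : ((E.filter fun e' => π e' = a).card : ℂ) ≠ 0 := by
    have := hA a ha
    exact_mod_cast this.ne'
  field_simp

/-- the representations of `a` as the image of an element of `X` under an element of `T` -/
def Rep (α β γ δ : ZMod p) (T : Finset (ZMod p × ZMod p)) (X : Finset (ZMod p)) (a : ZMod p) :
    Finset ((ZMod p × ZMod p) × ZMod p) :=
  (T ×ˢ X).filter fun u => dn γ δ u.1 u.2 ≠ 0 ∧ nm α β u.1 u.2 = a * dn γ δ u.1 u.2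

/-- the weights on the representations -/
noncomputable def wt [Fact p.Prime] (α β γ δ : ZMod p) (T : Finset (ZMod p × ZMod p)) (X : Finset (ZMod p))
    (A : Finset (ZMod p)) (f : ZMod p → ℂ) (x : ZMod p) (g : ZMod p × ZMod p) : ℂ :=
  if dn γ δ g x ≠ 0 ∧ nm α β g x / dn γ δ g x ∈ A then
    f (nm α β g x / dn γ δ g x) / ((Rep α β γ δ T X (nm α β g x / dn γ δ g x)).card : ℂ) else 0

theorem cover_points [Fact p.Prime] (α β γ δ : ZMod p) (T : Finset (ZMod p × ZMod p))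
    (X A : Finset (ZMod p)) (hA : ∀ a ∈ A, 0 < (Rep α β γ δ T X a).card) (f H : ZMod p → ℂ) :
    ∑ a ∈ A, f a * H a = ∑ x ∈ X, ∑ g ∈ T, wt α β γ δ T X A f x g *
      H (nm α β g x / dn γ δ g x) := by
  classical
  set E : Finset ((ZMod p × ZMod p) × ZMod p) := (T ×ˢ X).filter fun u => dn γ δ u.1 u.2 ≠ 0 with hE
  set π : (ZMod p × ZMod p) × ZMod p → ZMod p := fun u => nm α β u.1 u.2 / dn γ δ u.1 u.2 with hπ
  have hRep : ∀ a, E.filter (fun e => π e = a) = Rep α β γ δ T X a := by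
    intro a
    ext u
    unfold Rep
    rw [hE, mem_filter, mem_filter, mem_filter]
    constructor
    · rintro ⟨⟨h1, h2⟩, h3⟩
      refine ⟨h1, h2, ?_⟩
      rw [← h3, hπ]
      simp only
      rw [div_mul_cancel₀ _ h2]
    · rintro ⟨h1, h2, h3⟩
      refine ⟨⟨h1, h2⟩, ?_⟩
      rw [hπ]
      simp only
      rw [h3, mul_div_cancel_right₀ _ h2]
  have h1 := cover_sum E π A (fun a ha => by rw [hRep]; exact hA a ha) f H
  rw [h1, hE, Finset.sum_filter, Finset.sum_product_right]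
  refine Finset.sum_congr rfl fun x _ => Finset.sum_congr rfl fun g _ => ?_
  unfold wt
  rw [hRep]
  by_cases h2 : dn γ δ g x = 0
  · rw [if_neg (by simpa using h2), if_neg (fun h3 => h3.1 h2), zero_mul]
  · rw [if_pos h2]
    by_cases h3 : nm α β g x / dn γ δ g x ∈ A
    · rw [if_pos h3, if_pos ⟨h2, h3⟩]
    · rw [if_neg h3, if_neg (fun h4 => h3 h4.2)]

theorem wt_norm [Fact p.Prime] (α β γ δ : ZMod p) (T : Finset (ZMod p × ZMod p))
    (X A : Finset (ZMod p)) (r : ℝ) (hr : 0 < r)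
    (hA : ∀ a ∈ A, r ≤ ((Rep α β γ δ T X a).card : ℝ)) (f : ZMod p → ℂ)
    (hf : ∀ a, ‖f a‖ ≤ 1) (x : ZMod p) (g : ZMod p × ZMod p) :
    ‖(r : ℂ) * wt α β γ δ T X A f x g‖ ≤ 1 := by
  unfold wt
  split_ifs with h
  · rw [norm_mul, norm_div, Complex.norm_natCast, Complex.norm_real, Real.norm_eq_abs,
      abs_of_pos hr]
    have h1 := hA _ h.2
    have h2 : 0 < ((Rep α β γ δ T X (nm α β g x / dn γ δ g x)).card : ℝ) := lt_of_lt_of_le hr h1
    rw [← mul_div_assoc, div_le_one h2]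
    calc r * ‖f (nm α β g x / dn γ δ g x)‖ ≤ r * 1 := mul_le_mul_of_nonneg_left (hf _) hr.le
      _ = r := mul_one r
      _ ≤ _ := h1
  · simp

/-- pairs of equal points, or with the invariant in a given set -/
noncomputable def conc [Fact p.Prime] (α β γ δ : ZMod p) (X Y W : Finset (ZMod p)) :
    Finset (ZMod p × ZMod p) :=
  (X ×ˢ Y).filter fun u => u.1 = u.2 ∨ ivr α β γ δ u.1 u.2 ∈ W

theorem popular_bound [Fact p.Prime] (χ : DirichletCharacter ℂ p) (α β γ δ : ZMod p)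
    (T T' : Finset (ZMod p × ZMod p)) (h1 : 1 ≤ T.card) (h1' : 1 ≤ T'.card) (θ : ℝ)
    (X Y A B : Finset (ZMod p)) (ρ ρ' : ℝ) (hρ : 0 < ρ) (hρ' : 0 < ρ')
    (hA : ∀ a ∈ A, ρ * T.card ≤ ((Rep α β γ δ T X a).card : ℝ))
    (hB : ∀ b ∈ B, ρ' * T'.card ≤ ((Rep α β γ δ T' Y b).card : ℝ))
    (f g : ZMod p → ℂ) (hf : ∀ a, ‖f a‖ ≤ 1) (hg : ∀ b, ‖g b‖ ≤ 1) :
    ρ * ρ' * ‖∑ a ∈ A, ∑ b ∈ B, f a * g b * χ (a - b)‖ ≤
      (X.card : ℝ) * Y.card * Real.sqrt (1 / T'.card + θ) +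
        (conc α β γ δ X Y (Bad χ (α + δ) (α * δ - β * γ) T T' θ)).card := by
  classical
  have hT0 : (0 : ℝ) < T.card := by exact_mod_cast h1
  have hT'0 : (0 : ℝ) < T'.card := by exact_mod_cast h1'
  set r : ℝ := ρ * T.card with hr
  set r' : ℝ := ρ' * T'.card with hr'
  have hr0 : 0 < r := by positivity
  have hr'0 : 0 < r' := by positivity
  have hApos : ∀ a ∈ A, 0 < (Rep α β γ δ T X a).card := by
    intro a ha
    have := lt_of_lt_of_le hr0 (hA a ha)
    exact_mod_cast this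
  have hBpos : ∀ b ∈ B, 0 < (Rep α β γ δ T' Y b).card := by
    intro b hb
    have := lt_of_lt_of_le hr'0 (hB b hb)
    exact_mod_cast this
  set F : ZMod p → ZMod p × ZMod p → ℂ := fun x s => (r : ℂ) * wt α β γ δ T X A f x s with hF
  set G : ZMod p → ZMod p × ZMod p → ℂ := fun y t => (r' : ℂ) * wt α β γ δ T' Y B g y t with hG
  have hFn : ∀ x s, ‖F x s‖ ≤ 1 := fun x s => wt_norm α β γ δ T X A r hr0 hA f hf x s
  have hGn : ∀ y t, ‖G y t‖ ≤ 1 := fun y t => wt_norm α β γ δ T' Y B r' hr'0 hB g hg y t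
  have hF0 : ∀ x s, dn γ δ s x = 0 → F x s = 0 := by
    intro x s h
    rw [hF]
    simp only
    unfold wt
    rw [if_neg (fun h3 => h3.1 h), mul_zero]
  have hG0 : ∀ y t, dn γ δ t y = 0 → G y t = 0 := by
    intro x s h
    rw [hG]
    simp only
    unfold wt
    rw [if_neg (fun h3 => h3.1 h), mul_zero]
  have hS : ((r * r' : ℝ) : ℂ) * ∑ a ∈ A, ∑ b ∈ B, f a * g b * χ (a - b) =
      ∑ x ∈ X, ∑ y ∈ Y, ∑ s ∈ T, ∑ t ∈ T', F x s * G y t *
        χ (nm α β s x / dn γ δ s x - nm α β t y / dn γ δ t y) := by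
    have e1 : ∑ a ∈ A, ∑ b ∈ B, f a * g b * χ (a - b) =
        ∑ a ∈ A, f a * (∑ b ∈ B, g b * χ (a - b)) := by
      refine Finset.sum_congr rfl fun a _ => ?_
      rw [Finset.mul_sum]
      refine Finset.sum_congr rfl fun b _ => ?_
      ring
    rw [e1, cover_points α β γ δ T X A hApos f (fun a => ∑ b ∈ B, g b * χ (a - b))]
    have e2 : ∀ a, ∑ b ∈ B, g b * χ (a - b) = ∑ y ∈ Y, ∑ t ∈ T', wt α β γ δ T' Y B g y t *
        χ (a - nm α β t y / dn γ δ t y) := fun a =>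
      cover_points α β γ δ T' Y B hBpos g (fun b => χ (a - b))
    simp only [e2]
    rw [Finset.mul_sum]
    refine Finset.sum_congr rfl fun x _ => ?_
    rw [Finset.mul_sum]
    have e3 : ∀ s, ((r * r' : ℝ) : ℂ) * (wt α β γ δ T X A f x s *
        ∑ y ∈ Y, ∑ t ∈ T', wt α β γ δ T' Y B g y t *
          χ (nm α β s x / dn γ δ s x - nm α β t y / dn γ δ t y)) =
        ∑ y ∈ Y, ∑ t ∈ T', F x s * G y t *
          χ (nm α β s x / dn γ δ s x - nm α β t y / dn γ δ t y) := by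
      intro s
      rw [Finset.mul_sum, Finset.mul_sum]
      refine Finset.sum_congr rfl fun y _ => ?_
      rw [Finset.mul_sum, Finset.mul_sum]
      refine Finset.sum_congr rfl fun t _ => ?_
      rw [hF, hG]
      push_cast
      ring
    rw [Finset.sum_congr rfl fun s _ => e3 s, Finset.sum_comm]
  have hloc : ∀ x y, ‖∑ s ∈ T, ∑ t ∈ T', F x s * G y t *
        χ (nm α β s x / dn γ δ s x - nm α β t y / dn γ δ t y)‖ ≤
      (T.card : ℝ) * T'.card * (Real.sqrt (1 / T'.card + θ) +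
        if x = y ∨ ivr α β γ δ x y ∈ Bad χ (α + δ) (α * δ - β * γ) T T' θ then 1 else 0) := by
    intro x y
    split_ifs with h
    · have h2 : ‖∑ s ∈ T, ∑ t ∈ T', F x s * G y t *
        χ (nm α β s x / dn γ δ s x - nm α β t y / dn γ δ t y)‖ ≤ (T.card : ℝ) * T'.card := by
        refine (norm_sum_le _ _).trans ?_
        calc ∑ s ∈ T, ‖∑ t ∈ T', F x s * G y t *
              χ (nm α β s x / dn γ δ s x - nm α β t y / dn γ δ t y)‖
            ≤ ∑ _s ∈ T, ∑ _t ∈ T', (1 : ℝ) := by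
              refine Finset.sum_le_sum fun s _ => (norm_sum_le _ _).trans
                (Finset.sum_le_sum fun t _ => ?_)
              rw [norm_mul, norm_mul]
              exact mul_le_one₀ (mul_le_one₀ (hFn _ _) (norm_nonneg _) (hGn _ _)) (norm_nonneg _)
                (χ.norm_le_one _)
          _ = (T.card : ℝ) * T'.card := by simp
      refine h2.trans ?_
      have h3 : (0 : ℝ) ≤ Real.sqrt (1 / T'.card + θ) := Real.sqrt_nonneg _
      have h4 : (0 : ℝ) < (T.card : ℝ) * T'.card := by positivity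
      nlinarith
    · rw [not_or] at h
      rw [add_zero]
      exact local_bound χ α β γ δ T T' h1' θ x y h.1 h.2 (F x) (G y) (hFn x) (hGn y) (hF0 x) (hG0 y)
  have hfin : r * r' * ‖∑ a ∈ A, ∑ b ∈ B, f a * g b * χ (a - b)‖ ≤
      (T.card : ℝ) * T'.card * ((X.card : ℝ) * Y.card * Real.sqrt (1 / T'.card + θ) +
        (conc α β γ δ X Y (Bad χ (α + δ) (α * δ - β * γ) T T' θ)).card) := by
    have e1 : r * r' * ‖∑ a ∈ A, ∑ b ∈ B, f a * g b * χ (a - b)‖ =
        ‖((r * r' : ℝ) : ℂ) * ∑ a ∈ A, ∑ b ∈ B, f a * g b * χ (a - b)‖ := by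
      rw [norm_mul, Complex.norm_real, Real.norm_eq_abs, abs_of_pos (mul_pos hr0 hr'0)]
    rw [e1, hS]
    refine (norm_sum_le _ _).trans ?_
    calc ∑ x ∈ X, ‖∑ y ∈ Y, ∑ s ∈ T, ∑ t ∈ T', F x s * G y t *
          χ (nm α β s x / dn γ δ s x - nm α β t y / dn γ δ t y)‖
        ≤ ∑ x ∈ X, ∑ y ∈ Y, (T.card : ℝ) * T'.card * (Real.sqrt (1 / T'.card + θ) +
        if x = y ∨ ivr α β γ δ x y ∈ Bad χ (α + δ) (α * δ - β * γ) T T' θ then 1 else 0) :=
          Finset.sum_le_sum fun x _ => (norm_sum_le _ _).trans (Finset.sum_le_sum fun y _ => hloc x y)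
      _ = _ := by
          simp only [← Finset.mul_sum, Finset.sum_add_distrib, Finset.sum_const, nsmul_eq_mul]
          congr 1
          rw [conc, Finset.card_filter, Finset.sum_product]
          push_cast
          ring
  have e2 : r * r' * ‖∑ a ∈ A, ∑ b ∈ B, f a * g b * χ (a - b)‖ =
      (T.card : ℝ) * T'.card * (ρ * ρ' * ‖∑ a ∈ A, ∑ b ∈ B, f a * g b * χ (a - b)‖) := by
    rw [hr, hr']
    ring
  rw [e2] at hfin
  exact le_of_mul_le_mul_left hfin (by positivity)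

end Pool.Agent.H424.PJ
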