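import Pool.Agent.H424.PJ.Fixed
import Pool.Graph.R_seed8.Y881.SP.CountGen

/-! # Directions in which a set of differences meets a given set often -/

set_option autoImplicit false

namespace Pool.Agent.H424.PJ

open Finset Pool.Agent.Y881.SP

/-- for all `t` outside a set of at most `p ^ ε` elements few of the pairs satisfy
`t (y - y') ∈ Z` -/
theorem few_directions (ε : ℝ) (hε : 0 < ε) : ∃ c : ℝ, 0 < c ∧ c ≤ 1 / 16 ∧ ∃ p₀ : ℕ,
    ∀ (p : ℕ) [Fact p.Prime], p₀ ≤ p → ∀ Y Z : Finset (ZMod p),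
      (p : ℝ) ^ (1 / 2 - c) ≤ Y.card → (Z.card : ℝ) ≤ (p : ℝ) ^ (1 / 2 + c) →
      ∃ Θ : Finset (ZMod p), (0 : ZMod p) ∈ Θ ∧ (Θ.card : ℝ) ≤ (p : ℝ) ^ ε ∧ ∀ t ∉ Θ,
        (((Y ×ˢ Y).filter fun u => u.1 = u.2 ∨ t * (u.1 - u.2) ∈ Z).card : ℝ) ≤
          (p : ℝ) ^ (-c) * (Y.card * Y.card) := by
  classical
  set ε₁ : ℝ := min (ε / 2) (1 / 4) with hε₁
  have hε₁0 : 0 < ε₁ := lt_min (by positivity) (by norm_num)
  have hε₁ε : ε₁ ≤ ε / 2 := min_le_left _ _
  have hε₁4 : ε₁ ≤ 1 / 4 := min_le_right _ _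
  obtain ⟨c₁, hc₁, p₁, hcount⟩ := count_gen ε₁ hε₁0
  set c : ℝ := min (c₁ / 4) (1 / 16) with hc
  have hc0 : 0 < c := lt_min (by positivity) (by norm_num)
  have hcc : c ≤ c₁ / 4 := min_le_left _ _
  have hc16 : c ≤ 1 / 16 := min_le_right _ _
  obtain ⟨p₂, hp₂⟩ := Pool.Agent.TH7.PG.large 4 (c₁ / 4) (by positivity)
  obtain ⟨p₃, hp₃⟩ := Pool.Agent.TH7.PG.large 4 (1 / 16) (by norm_num)
  obtain ⟨p₄, hp₄⟩ := Pool.Agent.TH7.PG.large 4 (ε / 4) (by positivity)
  refine ⟨c, hc0, hc16, p₁ + p₂ + p₃ + p₄, ?_⟩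
  intro p hpf hp Y Z hY hZ
  have hp2 := hp₂ p (by omega)
  have hp3 := hp₃ p (by omega)
  have hp4 := hp₄ p (by omega)
  have hpR : (1 : ℝ) ≤ p := by exact_mod_cast (Fact.out : p.Prime).one_lt.le
  have hp0 : (0 : ℝ) < p := by linarith
  have hmono : ∀ x y : ℝ, x ≤ y → (p : ℝ) ^ x ≤ (p : ℝ) ^ y := fun x y h =>
    Real.rpow_le_rpow_of_exponent_le hpR h
  have hY0 : (0 : ℝ) < Y.card := lt_of_lt_of_le (by positivity) hY
  have hYbig : (p : ℝ) ^ (7 / 16 : ℝ) ≤ Y.card := (hmono _ _ (by linarith)).trans hY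
  have hYc : 2 ≤ (p : ℝ) ^ (-c) * Y.card / 2 := by
    have h1 : (p : ℝ) ^ (1 / 16 : ℝ) ≤ (p : ℝ) ^ (-c) * Y.card := by
      calc (p : ℝ) ^ (1 / 16 : ℝ) ≤ (p : ℝ) ^ (-c + 7 / 16) := hmono _ _ (by linarith)
        _ = (p : ℝ) ^ (-c) * (p : ℝ) ^ (7 / 16 : ℝ) := Real.rpow_add hp0 _ _
        _ ≤ _ := mul_le_mul_of_nonneg_left hYbig (by positivity)
    linarith
  -- the number of pairs
  have hcnt : ∀ t : ZMod p, (((Y ×ˢ Y).filter fun u => u.1 = u.2 ∨ t * (u.1 - u.2) ∈ Z).card : ℝ) ≤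
      Y.card + ((Y ×ˢ Y).filter fun u => t * (u.1 - u.2) ∈ Z).card := by
    intro t
    have h1 : ((Y ×ˢ Y).filter fun u => u.1 = u.2 ∨ t * (u.1 - u.2) ∈ Z).card ≤
        ((Y ×ˢ Y).filter fun u => u.1 = u.2).card +
          ((Y ×ˢ Y).filter fun u => t * (u.1 - u.2) ∈ Z).card := by
      rw [filter_or]
      exact card_union_le _ _
    have h2 : ((Y ×ˢ Y).filter fun u => u.1 = u.2).card ≤ Y.card := by
      refine card_le_card_of_injOn (fun u => u.1) ?_ ?_
      · intro u hu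
        exact mem_coe.2 (mem_product.1 (mem_filter.1 (mem_coe.1 hu)).1).1
      · intro u hu v hv huv
        have h3 := (mem_filter.1 (mem_coe.1 hu)).2
        have h4 := (mem_filter.1 (mem_coe.1 hv)).2
        have h5 : u.1 = v.1 := huv
        exact Prod.ext h5 (by rw [← h3, ← h4, h5])
    exact_mod_cast h1.trans (Nat.add_le_add_right h2 _)
  rcases le_or_gt (Y.card : ℝ) ((p : ℝ) ^ (1 - ε₁)) with hYs | hYl
  · refine ⟨insert 0 (univ.filter fun t : ZMod p => (p : ℝ) ^ (-c) * (Y.card * Y.card) <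
      (((Y ×ˢ Y).filter fun u => u.1 = u.2 ∨ t * (u.1 - u.2) ∈ Z).card : ℝ)),
      mem_insert_self _ _, ?_, ?_⟩
    swap
    · intro t ht
      rw [mem_insert, not_or, mem_filter, not_and] at ht
      exact not_lt.1 (ht.2 (mem_univ _))
    by_contra hcon
    rw [not_le] at hcon
    set Θ : Finset (ZMod p) := (univ.filter fun t : ZMod p => (p : ℝ) ^ (-c) * (Y.card * Y.card) <
      (((Y ×ˢ Y).filter fun u => u.1 = u.2 ∨ t * (u.1 - u.2) ∈ Z).card : ℝ)).erase 0 with hΘ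
    have hΘc : (p : ℝ) ^ (3 * ε / 4) ≤ Θ.card := by
      have h1 : (insert 0 (univ.filter fun t : ZMod p => (p : ℝ) ^ (-c) * (Y.card * Y.card) <
          (((Y ×ˢ Y).filter fun u => u.1 = u.2 ∨ t * (u.1 - u.2) ∈ Z).card : ℝ))).card ≤
          Θ.card + 1 := by
        refine (card_le_card ?_).trans (card_insert_le (0 : ZMod p) Θ)
        intro x hx
        by_cases hx0 : x = 0
        · rw [hx0]
          exact mem_insert_self _ _
        · exact mem_insert_of_mem (mem_erase.2 ⟨hx0, (mem_insert.1 hx).resolve_left hx0⟩)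
      have h2 : (p : ℝ) ^ ε < Θ.card + 1 := hcon.trans_le (by exact_mod_cast h1)
      have h3 : 4 * (p : ℝ) ^ (3 * ε / 4) ≤ (p : ℝ) ^ ε := by
        calc 4 * (p : ℝ) ^ (3 * ε / 4) ≤ (p : ℝ) ^ (ε / 4) * (p : ℝ) ^ (3 * ε / 4) :=
              mul_le_mul_of_nonneg_right hp4 (by positivity)
          _ = (p : ℝ) ^ ε := by
              rw [← Real.rpow_add hp0]
              congr 1
              ring
      have h4 : (1 : ℝ) ≤ (p : ℝ) ^ (3 * ε / 4) := Real.one_le_rpow hpR (by positivity)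
      linarith
    have hΘ0 : (0 : ℝ) < Θ.card := lt_of_lt_of_le (by positivity) hΘc
    have h1 := hcount p (by omega) Θ (fun t => t⁻¹) (fun _ => Y.image fun y => -y) Y Z
      (fun t ht => inv_ne_zero (ne_of_mem_erase ht))
      (fun x => by
        have h2 : (Θ.filter fun t => t⁻¹ = x).card ≤ 1 := by
          rw [card_le_one]
          intro a ha b hb
          exact inv_injective ((mem_filter.1 ha).2.trans (mem_filter.1 hb).2.symm)
        have h3 : ((Θ.filter fun t => t⁻¹ = x).card : ℝ) ≤ 1 := by exact_mod_cast h2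
        refine h3.trans ?_
        calc (1 : ℝ) = (p : ℝ) ^ (0 : ℝ) := (Real.rpow_zero _).symm
          _ ≤ (p : ℝ) ^ (-ε₁ + 3 * ε / 4) := hmono _ _ (by linarith)
          _ = (p : ℝ) ^ (-ε₁) * (p : ℝ) ^ (3 * ε / 4) := Real.rpow_add hp0 _ _
          _ ≤ _ := mul_le_mul_of_nonneg_left hΘc (by positivity))
      (fun t _ => by
        rw [card_image_of_injective _ neg_injective]
        exact (hmono _ _ (by linarith)).trans hYbig) hYs
      (by
        refine hZ.trans ?_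
        calc (p : ℝ) ^ (1 / 2 + c) ≤ (p : ℝ) ^ (c₁ + (1 / 2 - c)) := hmono _ _ (by linarith)
          _ = (p : ℝ) ^ c₁ * (p : ℝ) ^ (1 / 2 - c) := Real.rpow_add hp0 _ _
          _ ≤ _ := mul_le_mul_of_nonneg_left hY (by positivity))
    have h2 : ∀ t ∈ Θ, (p : ℝ) ^ (-c) * Y.card - 1 ≤
        ∑ s ∈ Y, prop (Y.image fun y => -y) Z t⁻¹ s := by
      intro t ht
      have h3 : (p : ℝ) ^ (-c) * (Y.card * Y.card) <
        (((Y ×ˢ Y).filter fun u => u.1 = u.2 ∨ t * (u.1 - u.2) ∈ Z).card : ℝ) :=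
        (mem_filter.1 (mem_of_mem_erase ht)).2
      have h4 := h3.trans_le (hcnt t)
      have h5 : ∑ s ∈ Y, prop (Y.image fun y => -y) Z t⁻¹ s =
          (((Y ×ˢ Y).filter fun u => t * (u.1 - u.2) ∈ Z).card : ℝ) / Y.card := by
        unfold prop
        rw [← sum_div, card_image_of_injective _ neg_injective]
        congr 1
        have h6 : ((Y ×ˢ Y).filter fun u => t * (u.1 - u.2) ∈ Z).card =
            ∑ s ∈ Y, (Y.filter fun y => t * (s - y) ∈ Z).card := by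
          simp only [card_filter]
          rw [Finset.sum_product]
        rw [h6]
        push_cast
        refine sum_congr rfl fun s _ => ?_
        congr 1
        rw [filter_image, card_image_of_injective _ neg_injective]
        congr 1
        refine filter_congr fun y _ => ?_
        rw [div_inv_eq_mul, neg_add_eq_sub, mul_comm]
      rw [h5, le_div_iff₀ hY0]
      linarith
    have h3 : (Θ.card : ℝ) * ((p : ℝ) ^ (-c) * Y.card - 1) ≤ (p : ℝ) ^ (-c₁) * (Y.card * Θ.card) := by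
      refine le_trans ?_ h1
      rw [← nsmul_eq_mul, ← sum_const]
      exact sum_le_sum h2
    have h4 : (p : ℝ) ^ (-c) * Y.card - 1 ≤ (p : ℝ) ^ (-c₁) * Y.card := by
      have h5 : (Θ.card : ℝ) * ((p : ℝ) ^ (-c) * Y.card - 1) ≤
          Θ.card * ((p : ℝ) ^ (-c₁) * Y.card) := by
        refine h3.trans (le_of_eq ?_)
        ring
      exact le_of_mul_le_mul_left h5 hΘ0
    have h6 : 4 * (p : ℝ) ^ (-c₁) ≤ (p : ℝ) ^ (-c) := by
      calc 4 * (p : ℝ) ^ (-c₁) ≤ (p : ℝ) ^ (c₁ / 4) * (p : ℝ) ^ (-c₁) :=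
            mul_le_mul_of_nonneg_right hp2 (by positivity)
        _ = (p : ℝ) ^ (c₁ / 4 + -c₁) := (Real.rpow_add hp0 _ _).symm
        _ ≤ (p : ℝ) ^ (-c) := hmono _ _ (by linarith)
    have h7 := mul_le_mul_of_nonneg_right h6 hY0.le
    linarith
  · refine ⟨{0}, mem_singleton_self _, ?_, ?_⟩
    · rw [card_singleton, Nat.cast_one]
      exact Real.one_le_rpow hpR hε.le
    intro t ht
    have ht0 : t ≠ 0 := fun h => ht (mem_singleton.2 h)
    refine (hcnt t).trans ?_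
    have h1 : ((Y ×ˢ Y).filter fun u => t * (u.1 - u.2) ∈ Z).card ≤ (Y ×ˢ Z).card := by
      refine card_le_card_of_injOn (fun u => (u.1, t * (u.1 - u.2))) ?_ ?_
      · intro u hu
        have h2 := mem_filter.1 (mem_coe.1 hu)
        exact mem_coe.2 (mem_product.2 ⟨(mem_product.1 h2.1).1, h2.2⟩)
      · intro u _ v _ huv
        simp only [Prod.mk.injEq] at huv
        obtain ⟨h3, h4⟩ := huv
        have h5 := mul_left_cancel₀ ht0 h4
        rw [h3] at h5
        exact Prod.ext h3 (sub_right_injective h5)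
    have h2 : (((Y ×ˢ Y).filter fun u => t * (u.1 - u.2) ∈ Z).card : ℝ) ≤
        Y.card * (p : ℝ) ^ (1 / 2 + c) := by
      calc (((Y ×ˢ Y).filter fun u => t * (u.1 - u.2) ∈ Z).card : ℝ) ≤ ((Y ×ˢ Z).card : ℝ) := by
            exact_mod_cast h1
        _ = Y.card * Z.card := by rw [card_product]; push_cast; ring
        _ ≤ _ := mul_le_mul_of_nonneg_left hZ hY0.le
    have h3 : (1 : ℝ) ≤ (p : ℝ) ^ (1 / 2 + c) := Real.one_le_rpow hpR (by positivity)
    have h4 : 2 * (p : ℝ) ^ (1 / 2 + c) ≤ (p : ℝ) ^ (-c) * Y.card := by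
      calc 2 * (p : ℝ) ^ (1 / 2 + c) ≤ (p : ℝ) ^ (1 / 16 : ℝ) * (p : ℝ) ^ (1 / 2 + c) :=
            mul_le_mul_of_nonneg_right (by linarith) (by positivity)
        _ = (p : ℝ) ^ (1 / 16 + (1 / 2 + c)) := (Real.rpow_add hp0 _ _).symm
        _ ≤ (p : ℝ) ^ (-c + (1 - ε₁)) := hmono _ _ (by linarith)
        _ = (p : ℝ) ^ (-c) * (p : ℝ) ^ (1 - ε₁) := Real.rpow_add hp0 _ _
        _ ≤ _ := mul_le_mul_of_nonneg_left hYl.le (by positivity)
    calc (Y.card : ℝ) + ((Y ×ˢ Y).filter fun u => t * (u.1 - u.2) ∈ Z).card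
        ≤ Y.card * 1 + Y.card * (p : ℝ) ^ (1 / 2 + c) := by linarith
      _ ≤ Y.card * (p : ℝ) ^ (1 / 2 + c) + Y.card * (p : ℝ) ^ (1 / 2 + c) := by
          have := mul_le_mul_of_nonneg_left h3 hY0.le
          linarith
      _ = (2 * (p : ℝ) ^ (1 / 2 + c)) * Y.card := by ring
      _ ≤ ((p : ℝ) ^ (-c) * Y.card) * Y.card := mul_le_mul_of_nonneg_right h4 hY0.le
      _ = _ := by ring

end Pool.Agent.H424.PJ
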