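import Pool.Agent.H424.PJ.Cover
import Pool.Graph.R_seed8.TH7.PG.L2
import Pool.Graph.R_seed8.TH7.PG.Core

/-! # Power saving for popular images, with a fixed exceptional set -/

set_option autoImplicit false

namespace Pool.Agent.H424.PJ

open Finset Pool.Agent.TH7.PG

/-- power saving for all bilinear forms with the kernel `χ (a - b)` over popular images: the
exceptional set of the invariants depends on the character and on the sets of matrices only -/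
theorem main_fixed (ε : ℝ) (hε : 0 < ε) : ∃ τ : ℝ, 0 < τ ∧ ∃ p₀ : ℕ,
    ∀ (p : ℕ) [Fact p.Prime], p₀ ≤ p → ∀ χ : DirichletCharacter ℂ p, χ ≠ 1 →
    ∀ (α β γ δ : ZMod p) (T T' : Finset (ZMod p × ZMod p)),
      Good (α + δ) (α * δ - β * γ) T → Good (α + δ) (α * δ - β * γ) T' →
      (p : ℝ) ^ ε ≤ T.card → (p : ℝ) ^ ε ≤ T'.card →
    ∃ W : Finset (ZMod p), (W.card : ℝ) ≤ (p : ℝ) ^ (1 / 2 + ε) ∧
    ∀ (X Y A B : Finset (ZMod p)) (ρ ρ' : ℝ), 0 < ρ → 0 < ρ' →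
      (∀ a ∈ A, ρ * T.card ≤ ((Rep α β γ δ T X a).card : ℝ)) →
      (∀ b ∈ B, ρ' * T'.card ≤ ((Rep α β γ δ T' Y b).card : ℝ)) →
      (X.card : ℝ) ≤ ρ * ((p : ℝ) ^ τ * A.card) → (Y.card : ℝ) ≤ ρ' * ((p : ℝ) ^ τ * B.card) →
      ((conc α β γ δ X Y W).card : ℝ) ≤ (p : ℝ) ^ (-ε) * (X.card * Y.card) →
      ∀ f g : ZMod p → ℂ, ‖∑ a ∈ A, ∑ b ∈ B, f a * g b * χ (a - b)‖ ≤ (p : ℝ) ^ (-τ) *
        ((Real.sqrt A.card * Real.sqrt B.card) *
          (Real.sqrt (∑ a ∈ A, ‖f a‖ ^ 2) * Real.sqrt (∑ b ∈ B, ‖g b‖ ^ 2))) := by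
  classical
  set ε' : ℝ := min ε 1 with hε'
  have hε'0 : 0 < ε' := lt_min hε one_pos
  have hε'1 : ε' ≤ 1 := min_le_right _ _
  have hε'ε : ε' ≤ ε := min_le_left _ _
  set k : ℕ := ⌈1 / ε'⌉₊ with hk
  have hk1 : 1 ≤ ε' * k := by
    have h1 : 1 / ε' ≤ k := Nat.le_ceil _
    rw [div_le_iff₀ hε'0] at h1
    linarith
  have hkpos : 1 ≤ k := by
    rw [hk]
    exact Nat.one_le_ceil_iff.2 (by positivity)
  have hk0 : (0 : ℝ) < k := by exact_mod_cast hkpos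
  have hkR : (1 : ℝ) ≤ k := by exact_mod_cast hkpos
  set c : ℝ := ε' / (4 * k) with hc
  have hc0 : 0 < c := by positivity
  have hcε : c ≤ ε' := by
    rw [hc]
    refine div_le_self hε'0.le ?_
    linarith
  set C₁ : ℝ := 4 ^ k * (((4 * k : ℝ) ^ (2 * k) + 1) + 4 * k) with hC₁
  obtain ⟨p₁, hp₁⟩ := large C₁ (ε' / 2) (by positivity)
  obtain ⟨p₂, hp₂⟩ := large 3 (c / 48) (by positivity)
  obtain ⟨p₃, hp₃⟩ := large 4 ε hε
  refine ⟨c / 16, by positivity, p₁ + p₂ + p₃, ?_⟩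
  intro p hpf hp χ hχ α β γ δ T T' hT hT' hTc hTc'
  have hp1 := hp₁ p (by omega)
  have hp2 := hp₂ p (by omega)
  have hp3 := hp₃ p (by omega)
  have hpR : (1 : ℝ) ≤ p := by exact_mod_cast (Fact.out : p.Prime).one_lt.le
  have hp0 : (0 : ℝ) < p := by linarith
  have h4 : 4 ≤ T.card := by exact_mod_cast hp3.trans hTc
  have h4' : 4 ≤ T'.card := by exact_mod_cast hp3.trans hTc'
  set θ : ℝ := (p : ℝ) ^ (-c) with hθ
  have hθ0 : 0 < θ := by positivity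
  have hTpos : (0 : ℝ) < T.card := by
    have : (4 : ℝ) ≤ T.card := by exact_mod_cast h4
    linarith
  -- the exceptional set is small
  have hbad : ((Bad χ (α + δ) (α * δ - β * γ) T T' θ).card : ℝ) ≤ (p : ℝ) ^ (1 / 2 + ε) := by
    refine (bad_card χ hχ k hkpos _ _ T T' hT hT' h4 (by omega) θ hθ0).trans ?_
    have h1 : (p : ℝ) ≤ (T.card : ℝ) ^ k := by
      calc (p : ℝ) = (p : ℝ) ^ (1 : ℝ) := (Real.rpow_one _).symm
        _ ≤ (p : ℝ) ^ (ε * k) := by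
            refine Real.rpow_le_rpow_of_exponent_le hpR (hk1.trans ?_)
            exact mul_le_mul_of_nonneg_right hε'ε hk0.le
        _ = ((p : ℝ) ^ ε) ^ k := by rw [Real.rpow_mul hp0.le, Real.rpow_natCast]
        _ ≤ (T.card : ℝ) ^ k := pow_le_pow_left₀ (by positivity) hTc k
    have h2 : ((4 * k : ℝ) ^ (2 * k) + 1) * p / (T.card : ℝ) ^ k ≤
        ((4 * k : ℝ) ^ (2 * k) + 1) * Real.sqrt p := by
      rw [mul_div_assoc]
      refine mul_le_mul_of_nonneg_left ?_ (by positivity)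
      have h3 : (p : ℝ) / (T.card : ℝ) ^ k ≤ 1 := by
        rw [div_le_one (by positivity)]
        exact h1
      refine h3.trans ?_
      rw [← Real.sqrt_one]
      exact Real.sqrt_le_sqrt hpR
    have h5 : (4 / θ ^ 2) ^ k = 4 ^ k * (p : ℝ) ^ (ε' / 2) := by
      rw [div_pow, div_eq_mul_inv]
      congr 1
      rw [hθ, ← Real.rpow_natCast ((p : ℝ) ^ (-c)) 2, ← Real.rpow_mul hp0.le, ← Real.rpow_natCast,
        ← Real.rpow_mul hp0.le, ← Real.rpow_neg hp0.le]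
      congr 1
      rw [hc]
      push_cast
      field_simp
      norm_num
    have h6 : Real.sqrt p = (p : ℝ) ^ (1 / 2 : ℝ) := Real.sqrt_eq_rpow p
    rw [h5]
    calc 4 ^ k * (p : ℝ) ^ (ε' / 2) * (((4 * k : ℝ) ^ (2 * k) + 1) * p / (T.card : ℝ) ^ k +
          4 * k * Real.sqrt p)
        ≤ 4 ^ k * (p : ℝ) ^ (ε' / 2) * (((4 * k : ℝ) ^ (2 * k) + 1) * Real.sqrt p +
          4 * k * Real.sqrt p) := by
          refine mul_le_mul_of_nonneg_left ?_ (by positivity)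
          linarith
      _ = C₁ * ((p : ℝ) ^ (ε' / 2) * Real.sqrt p) := by
          rw [hC₁]
          ring
      _ ≤ (p : ℝ) ^ (ε' / 2) * ((p : ℝ) ^ (ε' / 2) * Real.sqrt p) :=
          mul_le_mul_of_nonneg_right hp1 (by positivity)
      _ = (p : ℝ) ^ (1 / 2 + ε') := by
          rw [h6, ← Real.rpow_add hp0, ← Real.rpow_add hp0]
          congr 1
          ring
      _ ≤ (p : ℝ) ^ (1 / 2 + ε) := Real.rpow_le_rpow_of_exponent_le hpR (by linarith)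
  refine ⟨_, hbad, ?_⟩
  intro X Y A B ρ ρ' hρ hρ' hA hB hX hY hcon
  -- bounded weights
  have hbdd : ∀ f g : ZMod p → ℂ, (∀ x, ‖f x‖ ≤ 1) → (∀ x, ‖g x‖ ≤ 1) →
      ‖∑ a ∈ A, ∑ b ∈ B, f a * g b * χ (a - b)‖ ≤
        (p : ℝ) ^ (-(c / 4)) * (A.card * B.card) := by
    intro f g hf hg
    have h1 := popular_bound χ α β γ δ T T' (by omega) (by omega) θ X Y A B ρ ρ' hρ hρ' hA hB
      f g hf hg
    have h2 : Real.sqrt (1 / T'.card + θ) ≤ 2 * (p : ℝ) ^ (-(c / 2)) := by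
      have h3 : 1 / (T'.card : ℝ) ≤ θ := by
        rw [hθ, Real.rpow_neg hp0.le, ← one_div]
        refine one_div_le_one_div_of_le (by positivity) ?_
        exact (Real.rpow_le_rpow_of_exponent_le hpR (hcε.trans hε'ε)).trans hTc'
      have h4 : 1 / (T'.card : ℝ) + θ ≤ (2 * (p : ℝ) ^ (-(c / 2))) ^ 2 := by
        have e1 : (2 * (p : ℝ) ^ (-(c / 2))) ^ 2 = 4 * θ := by
          rw [mul_pow, ← Real.rpow_natCast ((p : ℝ) ^ (-(c / 2))) 2, ← Real.rpow_mul hp0.le, hθ]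
          norm_num
        rw [e1]
        linarith
      calc Real.sqrt (1 / T'.card + θ) ≤ Real.sqrt ((2 * (p : ℝ) ^ (-(c / 2))) ^ 2) :=
            Real.sqrt_le_sqrt h4
        _ = 2 * (p : ℝ) ^ (-(c / 2)) := Real.sqrt_sq (by positivity)
    have h5 : (p : ℝ) ^ (-ε) ≤ (p : ℝ) ^ (-(c / 2)) :=
      Real.rpow_le_rpow_of_exponent_le hpR (by linarith)
    have h6 : ρ * ρ' * ‖∑ a ∈ A, ∑ b ∈ B, f a * g b * χ (a - b)‖ ≤
        3 * (p : ℝ) ^ (-(c / 2)) * (X.card * Y.card) := by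
      refine h1.trans ?_
      have h7 : (X.card : ℝ) * Y.card * Real.sqrt (1 / T'.card + θ) ≤
          (X.card : ℝ) * Y.card * (2 * (p : ℝ) ^ (-(c / 2))) :=
        mul_le_mul_of_nonneg_left h2 (by positivity)
      have h8 : (p : ℝ) ^ (-ε) * ((X.card : ℝ) * Y.card) ≤
          (p : ℝ) ^ (-(c / 2)) * ((X.card : ℝ) * Y.card) :=
        mul_le_mul_of_nonneg_right h5 (by positivity)
      linarith
    have h7 : (X.card : ℝ) * Y.card ≤ (ρ * ((p : ℝ) ^ (c / 16) * A.card)) *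
        (ρ' * ((p : ℝ) ^ (c / 16) * B.card)) :=
      mul_le_mul hX hY (Nat.cast_nonneg _) (by positivity)
    have h8 : ρ * ρ' * ‖∑ a ∈ A, ∑ b ∈ B, f a * g b * χ (a - b)‖ ≤
        ρ * ρ' * ((p : ℝ) ^ (-(c / 4)) * (A.card * B.card)) := by
      calc ρ * ρ' * ‖∑ a ∈ A, ∑ b ∈ B, f a * g b * χ (a - b)‖
          ≤ 3 * (p : ℝ) ^ (-(c / 2)) * (X.card * Y.card) := h6
        _ ≤ 3 * (p : ℝ) ^ (-(c / 2)) * ((ρ * ((p : ℝ) ^ (c / 16) * A.card)) *
            (ρ' * ((p : ℝ) ^ (c / 16) * B.card))) := mul_le_mul_of_nonneg_left h7 (by positivity)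
        _ = ρ * ρ' * (3 * ((p : ℝ) ^ (-(c / 2)) * (p : ℝ) ^ (c / 16) * (p : ℝ) ^ (c / 16)) *
            (A.card * B.card)) := by ring
        _ ≤ ρ * ρ' * ((p : ℝ) ^ (-(c / 4)) * (A.card * B.card)) := by
            refine mul_le_mul_of_nonneg_left ?_ (by positivity)
            refine mul_le_mul_of_nonneg_right ?_ (by positivity)
            calc 3 * ((p : ℝ) ^ (-(c / 2)) * (p : ℝ) ^ (c / 16) * (p : ℝ) ^ (c / 16))
                ≤ (p : ℝ) ^ (c / 48) * ((p : ℝ) ^ (-(c / 2)) * (p : ℝ) ^ (c / 16) *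
                  (p : ℝ) ^ (c / 16)) := mul_le_mul_of_nonneg_right hp2 (by positivity)
              _ = (p : ℝ) ^ (c / 48 + (-(c / 2) + c / 16 + c / 16)) := by
                  rw [← Real.rpow_add hp0, ← Real.rpow_add hp0, ← Real.rpow_add hp0]
              _ ≤ (p : ℝ) ^ (-(c / 4)) := Real.rpow_le_rpow_of_exponent_le hpR (by linarith)
    exact le_of_mul_le_mul_left h8 (mul_pos hρ hρ')
  intro f g
  have h1 := linf_to_l2_pow A B (fun a b => χ (a - b)) (fun a b => χ.norm_le_one _) p (c / 4)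
    hpR (by
      have e : c / 4 / 12 = c / 48 := by ring
      rw [e]
      exact hp2) hbdd f g
  have e1 : c / 4 / 4 = c / 16 := by ring
  rw [e1] at h1
  exact h1

end Pool.Agent.H424.PJ
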